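import Pool.Agent.Y120.R.Gm

/-!
# De Rham-Betti classes and de Rham-Betti subobjects at almost all fibres of arbitrary one-parameter families

Let `P_i(x)`, `1 ≤ i ≤ k`, be period matrices (rows: de Rham side, columns: Betti side) of one-parameter families over an
open part of the line near `x = 0` whose entries are polynomials with arbitrary complex coefficients in `log x` and in
G-functions over `ℚ`. For almost all integral points `t` every de Rham-Betti class over a number field `K` of degree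
`≤ D` on sums of twisted tensor products of tensor degree `≤ d` of the fibres at `x_i = 1 / t_i` is invariant under the
group of all symmetries of the functional relations between the periods (the differential Galois group, that is, the
algebraic monodromy group), and every de Rham-Betti subobject is stable under this group.
-/

set_option autoImplicit false

open PowerSeries

namespace Pool.Agent.Results.MP_470b79_ag.AlmostAllFibres

/-- an integer polynomial as a power series with rational coefficients -/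
noncomputable def toQ (P : Polynomial ℤ) : PowerSeries ℚ := ((P.map (Int.castRingHom ℚ) : Polynomial ℚ) : PowerSeries ℚ)

/-- the power series `P(u^e)` -/
noncomputable def atPow (e : ℕ) (P : Polynomial ℤ) : PowerSeries ℂ :=
  ((Polynomial.expand ℂ e (P.map (Int.castRingHom ℂ)) : Polynomial ℂ) : PowerSeries ℂ)

/-- the matrices `G_s` over `ℤ[x]` with `T^s y^(s) = G_s y` for all solutions `y` of `T y' = A y` -/
noncomputable def iter {r : ℕ} (T : Polynomial ℤ) (A : Fin r → Fin r → Polynomial ℤ) : ℕ → Fin r → Fin r → Polynomial ℤ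
  | 0 => fun i j => if i = j then 1 else 0
  | s + 1 => fun i j => T * Polynomial.derivative (iter T A s i j) + ∑ l, iter T A s i l * A l j -
      (s : Polynomial ℤ) * (Polynomial.derivative T * iter T A s i j)

/-- The system `T y' = A y` has a fundamental matrix of solutions of the form `u^(-M) ∑_n Φ_n(u) (log u)^n` with
`u^e = x` and convergent power series `Φ_n`: the point `0` is regular or a regular singularity with rational
exponents. -/
def QuasiUnipotent {r : ℕ} (T : Polynomial ℤ) (A : Fin r → Fin r → Polynomial ℤ) : Prop :=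
  ∃ (e M : ℕ) (K : ℝ) (Φ : Matrix (Fin r) (Fin r) (Polynomial (PowerSeries ℂ))), 1 ≤ e ∧ Φ.det ≠ 0 ∧
    (∀ i j n m, ‖coeff m ((Φ i j).coeff n)‖ ≤ K ^ (m + 1)) ∧
    ∀ i j n, atPow e T * (X * PowerSeries.derivative ℂ ((Φ i j).coeff n) +
        ((n : PowerSeries ℂ) + 1) * (Φ i j).coeff (n + 1) - (M : PowerSeries ℂ) * (Φ i j).coeff n) =
      (e : PowerSeries ℂ) * X ^ e * ∑ l, atPow e (A i l) * (Φ l j).coeff n

/-- `h_1, ..., h_r` are G-functions with rational coefficients which solve the differential system `T y' = A y`, with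
the conditions of Siegel and Galochkin, and `0` is a regular point or a regular singularity with rational exponents of
the system. -/
structure GFamily {r : ℕ} (T : Polynomial ℤ) (A : Fin r → Fin r → Polynomial ℤ) (h : Fin r → PowerSeries ℚ) : Prop where
  /-- the denominator is not zero -/
  T_ne : T ≠ 0
  /-- the differential equations -/
  ode : ∀ i, toQ T * PowerSeries.derivative ℚ (h i) = ∑ j, toQ (A i j) * h j
  /-- the coefficients have geometric growth -/
  size : ∃ C : ℝ, ∀ i m, |((coeff m (h i) : ℚ) : ℝ)| ≤ C ^ (m + 1)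
  /-- the common denominators of the coefficients have geometric growth -/
  den : ∃ C : ℝ, ∀ m : ℕ, ∃ d : ℕ, 0 < d ∧ (d : ℝ) ≤ C ^ (m + 1) ∧ ∀ i, ∀ j ≤ m, ∃ a : ℤ, (d : ℚ) * coeff j (h i) = a
  /-- Galochkin's condition: the common denominators of the matrices `G_s / s!` have geometric growth -/
  galochkin : ∃ C : ℝ, ∀ m : ℕ, ∃ d : ℕ, 0 < d ∧ (d : ℝ) ≤ C ^ (m + 1) ∧ ∀ s ≤ m, ∀ i j,
    ∃ H : Polynomial ℤ, (d : Polynomial ℤ) * iter T A s i j = (s.factorial : Polynomial ℤ) * H
  /-- the local exponents at `0` are rational and the singularity is regular -/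
  regular : QuasiUnipotent T A

theorem iter_eq {r : ℕ} (T : Polynomial ℤ) (A : Fin r → Fin r → Polynomial ℤ) (s : ℕ) :
    iter T A s = Pool.Agent.Y120.GH.itm T A s := by
  induction s with
  | zero => rfl
  | succ s ih =>
    funext i j
    rw [iter, Pool.Agent.Y120.GH.itm, ih]

theorem qu_eq {r : ℕ} {T : Polynomial ℤ} {A : Fin r → Fin r → Polynomial ℤ} (h : QuasiUnipotent T A) :
    Pool.Agent.Y120.GH.QU0 T A := by
  obtain ⟨e, M, K, Φ, he, hdet, hc, heq⟩ := h
  have he0 : e ≠ 0 := by omega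
  refine ⟨e, he0, M, K, Φ, hc, fun i j n => ?_, hdet⟩
  have h1 := heq i j n
  simp only [atPow] at h1
  rw [Pool.Agent.Y120.GH.expand_poly he0]
  simp only [Pool.Agent.Y120.GH.expand_poly he0]
  exact h1

theorem fam {r : ℕ} {T : Polynomial ℤ} {A : Fin r → Fin r → Polynomial ℤ} {h : Fin r → PowerSeries ℚ}
    (hG : GFamily T A h) (δ : ℕ) : Pool.Agent.Y120.R.Fam δ h :=
  ⟨hG.size, Pool.Agent.Y120.GH.family_main hG.T_ne hG.ode hG.size hG.den (by
    obtain ⟨C, hC⟩ := hG.galochkin
    refine ⟨C, fun m => ?_⟩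
    obtain ⟨d, h1, h2, h3⟩ := hC m
    refine ⟨d, h1, h2, fun s hs i' j' => ?_⟩
    rw [← iter_eq]
    exact h3 s hs i' j') (qu_eq hG.regular) δ⟩

section
variable {r n : ℕ}

/-- The period matrix at `x = 1 / s`: the entries are the polynomials `P a b` in `log s` and in the `h_l(1 / s)`. -/
noncomputable def perMat (h : Fin r → PowerSeries ℚ) (P : Fin n → Fin n → MvPolynomial (Option (Fin r)) ℂ) (s : ℝ) :
    Matrix (Fin n) (Fin n) ℂ :=
  Matrix.of fun a b => MvPolynomial.aeval (fun o : Option (Fin r) => o.elim ((Real.log s : ℝ) : ℂ)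
    fun l => ((∑' m : ℕ, ((coeff m (h l) : ℚ) : ℝ) * (1 / s) ^ m : ℝ) : ℂ)) (P a b)

/-- the value at `x = 1 / s` and at the matrix `Z` of a polynomial in the entries of a matrix over `ℂ[x]` -/
noncomputable def relAt (R : MvPolynomial (Fin n × Fin n) (Polynomial ℂ)) (s : ℝ) (Z : Matrix (Fin n) (Fin n) ℂ) : ℂ :=
  MvPolynomial.eval₂ (Polynomial.evalRingHom (1 / (s : ℂ))) (fun v => Z v.1 v.2) R

/-- The group of the matrices `g` such that `P(x) g` satisfies all polynomial relations over `ℂ[x]` which `P(x)`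
satisfies. If `P` is a fundamental matrix of a linear differential system over `ℂ(x)` this is its differential Galois
group; if the system is Fuchsian it is the Zariski closure of the monodromy group. -/
def Gal (h : Fin r → PowerSeries ℚ) (P : Fin n → Fin n → MvPolynomial (Option (Fin r)) ℂ) :
    Set (Matrix.GeneralLinearGroup (Fin n) ℂ) :=
  {g | ∀ R : MvPolynomial (Fin n × Fin n) (Polynomial ℂ),
    (∀ᶠ s : ℝ in Filter.atTop, relAt R s (perMat h P s) = 0) →
    ∀ᶠ s : ℝ in Filter.atTop, relAt R s (perMat h P s * (g : Matrix (Fin n) (Fin n) ℂ)) = 0}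

end

section
variable {k L : ℕ} {n : Fin k → ℕ}

/-- The index set of the bases of `⨁_l ⨂_i M_i^(⊗ m_{l,i})`, where `M_i` has rank `n_i`. -/
abbrev Idx (n : Fin k → ℕ) (m : Fin L → Fin k → ℕ) : Type := Σ l : Fin L, ∀ i : Fin k, Fin (m l i) → Fin (n i)

/-- The matrix on `⨁_l ω_l · ⨂_i M_i^(⊗ m_{l,i})` which is induced by the matrices `Z_i` on the `M_i`. -/
def tensor (m : Fin L → Fin k → ℕ) (ω : Fin L → ℂ) (Z : ∀ i, Matrix (Fin (n i)) (Fin (n i)) ℂ) :
    Matrix (Idx n m) (Idx n m) ℂ :=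
  Matrix.blockDiagonal' fun l => ω l • Matrix.of fun J I => ∏ i, ∏ j, Z i (J i j) (I i j)

/-- the extension of scalars from `K` to `ℂ` of a subspace of `K^ι` -/
def extend {K : IntermediateField ℚ ℂ} {ι : Type} (U : Submodule K (ι → K)) : Submodule ℂ (ι → ℂ) :=
  Submodule.span ℂ ((fun (u : ι → K) I => (u I : ℂ)) '' (U : Set (ι → K)))

/-- The classes on `⨁_l ω_l · ⨂_i M_i^(⊗ m_{l,i})` are invariant: all pairs of vectors `α`, `w` over `K` which correspond
to each other under the comparison given by the period matrices `Z_i` are invariant under all `(g_i) ∈ ∏ G_i`. -/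
def ClassesInvariant (K : IntermediateField ℚ ℂ) (m : Fin L → Fin k → ℕ) (ω : Fin L → ℂ)
    (Z : ∀ i, Matrix (Fin (n i)) (Fin (n i)) ℂ) (G : ∀ i, Set (Matrix.GeneralLinearGroup (Fin (n i)) ℂ)) : Prop :=
  ∀ α w : Idx n m → K, (tensor m ω Z).mulVec (fun I => (α I : ℂ)) = (fun J => (w J : ℂ)) →
    ∀ g : ∀ i, Matrix.GeneralLinearGroup (Fin (n i)) ℂ, (∀ i, g i ∈ G i) →
      (tensor m (fun _ => 1) fun i => (g i : Matrix (Fin (n i)) (Fin (n i)) ℂ)).mulVec (fun I => (α I : ℂ)) =
        fun I => (α I : ℂ)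

/-- The subobjects of `⨁_l ω_l · ⨂_i M_i^(⊗ m_{l,i})` are stable: all subspaces `U` over `K` (Betti side) for which there
is a subspace `W` over `K` (de Rham side) with `W = comparison of U` are stable under all `(g_i) ∈ ∏ G_i`. -/
def SubobjectsStable (K : IntermediateField ℚ ℂ) (m : Fin L → Fin k → ℕ) (ω : Fin L → ℂ)
    (Z : ∀ i, Matrix (Fin (n i)) (Fin (n i)) ℂ) (G : ∀ i, Set (Matrix.GeneralLinearGroup (Fin (n i)) ℂ)) : Prop :=
  ∀ U W : Submodule K (Idx n m → K), (extend U).map (tensor m ω Z).mulVecLin = extend W →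
    ∀ g : ∀ i, Matrix.GeneralLinearGroup (Fin (n i)) ℂ, (∀ i, g i ∈ G i) →
      (extend U).map (tensor m (fun _ => 1) fun i => (g i : Matrix (Fin (n i)) (Fin (n i)) ℂ)).mulVecLin = extend U

theorem tensor_eq (m : Fin L → Fin k → ℕ) (ω : Fin L → ℂ) (Z : ∀ i, Matrix (Fin (n i)) (Fin (n i)) ℂ) :
    tensor m ω Z = Pool.Agent.Y120.R.tens m ω Z := rfl

theorem extend_eq {K : IntermediateField ℚ ℂ} {ι : Type} [Fintype ι] (U : Submodule K (ι → K)) :
    extend U = Pool.Agent.Y120.R.ext U := rfl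

end

theorem perMat_eq {r n : ℕ} (h : Fin r → PowerSeries ℚ) (P : Fin n → Fin n → MvPolynomial (Option (Fin r)) ℂ) (s : ℝ) :
    perMat h P s = Pool.Agent.Y120.R.pM h P s := rfl

theorem gal_eq {r n : ℕ} (h : Fin r → PowerSeries ℚ) (P : Fin n → Fin n → MvPolynomial (Option (Fin r)) ℂ) :
    Gal h P = Pool.Agent.Y120.R.G1 h P := rfl

/-- Let `h_i`, `1 ≤ i ≤ k`, be families of G-functions over `ℚ`. There are `c > 0` and `C` such that for all square
matrices `P_i` of period functions (polynomials of degree `≤ e` in `log x_i` and the `h_{i,l}(x_i)` with arbitrary complex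
coefficients), all `m` with `∑_i m_{l,i} ≤ d`, all nonzero complex numbers `ω_l` (Tate twists: `ω_l = (2πi)^j`), all
number fields `K ⊂ ℂ` of degree `≤ D`, all boxes `∏ (x_i, x_i + N]` and all but
`C N^(k-1) ∑_i (1 + N / (x_i + N)^c)` integral points `t` of the box: if the matrices `P_i(1 / t_i)` are invertible then
all de Rham-Betti classes over `K` on `⨁_l ω_l · ⨂_i M_{i,t_i}^(⊗ m_{l,i})` are invariant under `∏ Gal(P_i)` and all de
Rham-Betti subobjects over `K` are stable under `∏ Gal(P_i)`. -/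
theorem result (k d e D L : ℕ) (r n : Fin k → ℕ) (T : Fin k → Polynomial ℤ) (A : ∀ i, Fin (r i) → Fin (r i) → Polynomial ℤ)
    (h : ∀ i, Fin (r i) → PowerSeries ℚ) (hG : ∀ i, GFamily (T i) (A i) (h i)) :
    ∃ c C : ℝ, 0 < c ∧ 0 ≤ C ∧ ∀ P : ∀ i, Fin (n i) → Fin (n i) → MvPolynomial (Option (Fin (r i))) ℂ,
    (∀ i a b, (P i a b).totalDegree ≤ e) → ∀ m : Fin L → Fin k → ℕ, (∀ l, ∑ i, m l i ≤ d) →
    ∀ ω : Fin L → ℂ, (∀ l, ω l ≠ 0) →
    ∀ K : IntermediateField ℚ ℂ, FiniteDimensional ℚ K → Module.finrank ℚ K ≤ D → ∀ (x : Fin k → ℕ) (N : ℕ), 1 ≤ N →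
    (({t : Fin k → ℕ | (∀ i, x i < t i ∧ t i ≤ x i + N) ∧ (∀ i, (perMat (h i) (P i) (t i : ℝ)).det ≠ 0) ∧
      ¬ (ClassesInvariant K m ω (fun i => perMat (h i) (P i) (t i : ℝ)) (fun i => Gal (h i) (P i)) ∧
        SubobjectsStable K m ω (fun i => perMat (h i) (P i) (t i : ℝ)) (fun i => Gal (h i) (P i)))}.ncard : ℕ) : ℝ) ≤
      C * (N : ℝ) ^ (k - 1) * ∑ i, (1 + N / ((x i : ℝ) + N) ^ c) := by
  classical
  obtain ⟨c, C, hc, hC, hmain⟩ := Pool.Agent.Y120.R.gm (n := n) d e D L fun i => fam (hG i) (d * e)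
  refine ⟨c, C, hc, hC, ?_⟩
  intro P hP m hm ω hω K hKf hK x N hN
  set E := {t : Fin k → ℕ | (∀ i, x i < t i ∧ t i ≤ x i + N) ∧ (∀ i, (perMat (h i) (P i) (t i : ℝ)).det ≠ 0) ∧
      ¬ (ClassesInvariant K m ω (fun i => perMat (h i) (P i) (t i : ℝ)) (fun i => Gal (h i) (P i)) ∧
        SubobjectsStable K m ω (fun i => perMat (h i) (P i) (t i : ℝ)) (fun i => Gal (h i) (P i)))} with hE
  have hfin : E.Finite := by
    refine (Set.finite_Iic (fun i : Fin k => x i + N)).subset ?_
    intro t ht i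
    exact (ht.1 i).2
  rw [Set.ncard_eq_toFinset_card E hfin]
  refine hmain m hm P hP ω hω K hKf hK x N hN _ fun t ht => ?_
  have ht' : t ∈ E := hfin.mem_toFinset.1 ht
  obtain ⟨hbox, hdet, hnot⟩ := ht'
  refine ⟨hbox, hdet, ?_⟩
  rw [not_and_or] at hnot
  rcases hnot with hnot | hnot
  · unfold ClassesInvariant at hnot
    push Not at hnot
    obtain ⟨α, w, hα, g, hg, hne⟩ := hnot
    exact ⟨g, hg, Or.inl ⟨α, w, hα, hne⟩⟩
  · unfold SubobjectsStable at hnot
    push Not at hnot
    obtain ⟨U, W, hUW, g, hg, hne⟩ := hnot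
    exact ⟨g, hg, Or.inr ⟨U, W, hUW, hne⟩⟩

end Pool.Agent.Results.MP_470b79_ag.AlmostAllFibres
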