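import Pool.Agent.Y890.SP.DRB

/-!
De Rham–Betti classes of bounded size on the tensor spaces of products of fibres of arbitrary one-parameter families:
at all but few of the tuples of fibres they are restrictions of global flat sections. The count of the points at which
algebraically independent functions satisfy a relation is the library theorem `Pool.Agent.Y124.excNF` (helper124,
after helper120); the reduction to it is new.
-/

namespace Pool.Agent.Results.MP_470b79_ag.FlatClasses

open Pool.Agent Pool.Agent.Y890.SP

/-- Let `U j` be connected open sets, `f j` finite families of analytic functions on `U j` such that `ℂ(x)` is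
algebraically closed in `ℂ(x, f j)`, and `Lc j` compact subsets of `U j`. For all `δ, m, A, ε > 0` and finite sets
`h, r` there are `C, T₀` such that for all `r × h`-matrices `TT` of functions on `∏ U j` whose entries are polynomials
of partial degrees at most `δ` in the functions `f j y (x j)`, with arbitrary complex coefficients `Ξ`, and which
satisfy differential equations `b ∂TT/∂x_j = TT * B` over the polynomials with algebraic coefficients (`DiffEq`), for
all complex numbers `θ`, all number fields `K` of degree at most `m` and all `T ≥ T₀`: for all but `C T^ε N^n` of the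
`n + 1`-tuples `s` of elements of `K` of height at most `T`, with `s j` in `Lc j`, every pair of vectors `v`, `w` of
integers of `K` of size at most `T ^ A` with `TT(s) v = θ w` is such that `w` is the Betti component of a global
section (`Global`): `TT(x) V(x) = θ q(x) w` for all `x` in `∏ U j`, for some vector `V` of polynomials with algebraic
coefficients and some such polynomial `q ≠ 0`. Here `N` is the number of elements of `K` of height at most `T`. -/
theorem result {n : ℕ} {σ : Type} [Fintype σ] [DecidableEq σ] (U : Fin (n + 1) → Set ℂ)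
    (f : Fin (n + 1) → σ → ℂ → ℂ) (hU : ∀ j, IsPreconnected (U j)) (hUo : ∀ j, IsOpen (U j))
    (hne : ∀ j, (U j).Nonempty) (hf : ∀ j i, AnalyticOnNhd ℂ (f j i) (U j)) (hreg : ∀ j, Regular (U j) (f j))
    (Lc : Fin (n + 1) → Set ℂ) (hLc : ∀ j, IsCompact (Lc j)) (hLU : ∀ j, Lc j ⊆ U j) (δ : ℕ) (h r : Type) [Fintype h]
    [DecidableEq h] [Fintype r] [DecidableEq r] (m : ℕ) (A ε : ℝ) (hε : 0 < ε) : ∃ C T₀ : ℝ, 0 ≤ C ∧ 2 ≤ T₀ ∧
      ∀ (Ξ : r → h → (Fin (n + 1) → σ → Fin (δ + 1)) → ℂ) (θ : ℂ), DiffEq U f Ξ →
        ∀ (K : Type) [Field K] [NumberField K], Module.finrank ℚ K ≤ m → ∀ (io : K →+* ℂ) (T : ℝ),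
        T₀ ≤ T → (ExcD U f Lc K io Ξ θ A T).Finite ∧
          ((ExcD U f Lc K io Ξ θ A T).ncard : ℝ) ≤ C * T ^ ε * ({x : K | Y120.HtLe K T x}.ncard : ℝ) ^ n :=
  excD_bound hU hUo hne hf hreg Lc hLc hLU δ h r m A ε hε

end Pool.Agent.Results.MP_470b79_ag.FlatClasses
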