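import Pool.Agent.Y123.GN.B3
import Pool.Agent.Y123.GN.B4
import Pool.Agent.Y123.ST.Out

/-!
# De Rham-Betti groups of almost all fibres contain the connected monodromy group

Let `Z` be a fundamental matrix, regular at `z = 0`, of a system `f Z' = Z A` over `ℚ(z)` such that the entries of `Z` and of
`W = Z⁻¹` are G-functions, for example the matrix of the Gauss-Manin connection of `h^i` of ANY family of smooth projective
varieties over `ℚ(z)` with good fibre at `z = 0`, and let `Ω` be any invertible complex matrix (the periods of the fibre at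
`z = 0`). Then `Ω Z(1/x)` is the period matrix of the fibre `M_x` at `z = 1/x`.

Let `Gal` be the group of the matrices `g` such that every polynomial relation over `ℂ(z)` between the entries of `Ω Z(1/x)`
is a relation between the entries of `g Ω Z(1/x)` (`IsGalois`). This is the differential Galois group, that is the Zariski
closure of the monodromy group for a regular singular system. Let `G` be any subgroup of `Gal` generated by the matrices
`exp (t N)`, `t ∈ ℂ`, where `N` runs through a set `𝒩` of nilpotent matrices contained in the span of its commutators. Every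
connected semisimple algebraic subgroup of `Gal` has this form (`𝒩` = nilpotent elements of its Lie algebra), and by
Deligne the connected component of the Zariski closure of the monodromy group is semisimple for families of smooth projective
varieties; so in this case one can take this component for `G` (these facts are not used in Lean).

**Theorem.** Let `K` be a number field and `M_0` any de Rham-Betti object over `K` with period matrix `C₀`. For almost all
`k`-tuples `m` (all but `C T^(k - c)` of the tuples in `[2, T]^k`, and all tuples of separated integers in windows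
`[N, N + N^c]` without at most `M` integers, where `C, M, c` depend only on the family, `k`, `[K : ℚ]` and the rank of `M_0`):

1. Every `K`-subtorsor `T'` of `Iso(M_dR, M_B)`, `M = M_0 ⊕ M_(m_1) ⊕ … ⊕ M_(m_k)`, which contains the period matrix is stable
under `1 × G^k`. This applies to `Ω_M`, to `Ω^dRB_M` and to `Ω^And_M`, there is no condition on the degrees. So
the group of the smallest torsor `Ω_M` and `G_dRB(M)` contain `1 × G^k`.

2. For all `p, q`, every de Rham-Betti class in the tensor space `M^(⊗p) ⊗ (M^∨)^(⊗q)` is fixed by `1 × G^k`.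

3. The Lie algebra of the group `T' T'⁻¹` is normalised by `1 × Gal^k` (in the Tannakian language, the connected component
of the group of periods is normalised by the monodromy).

So the de Rham-Betti classes on all tensor spaces of `M_0` and of almost all fibres are invariant under the
(connected, geometric) monodromy of the family, in each variable, and `Ω^dRB = Ω^And` can only fail for reasons that are
not visible in the variation.

Proof (`Pool/Agent/Y123/GN`). A theorem of helper113 (`Pool/Agent/Y113/GG`) says that outside of a sparse set all relations of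
bounded degree between the entries of the period matrices with coefficients in a given `ℚ`-space of bounded dimension are
functional; this is applied to the space of polynomials of bounded degree in the periods of `M_0` over `K`. So all relations
over `K` of degree at most `d` of the period matrix `c` of `M` are relations of `g c`, `g ∈ 1 × Gal^k`. As the Lie algebra
`L` of `T'` is rational over `K`, it follows that it is normalised by `1 × Gal^k`, so `[N, L] ⊆ L` for `N ∈ 𝒩`. Hence the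
classes modulo `L` of the conjugates of `N` by the group `H = T' T'⁻¹` are locally constant on `T'` (their derivatives along
derivations of `ℂ` vanish), so they are finite in number, and `H` acts through a finite group on the subspace of
`End / L` generated by them. By the theorem of Jordan the powers `h^J` and `h'^J` commute on this subspace for all `h, h' ∈ H`
where `J` only depends on the rank of `M`. This is a relation of bounded degree on `T'`, so it holds for `exp (t N)` and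
`exp (t' N')` in place of `h^J` and `h'^J`, and taking derivatives in `t` and `t'` we get `[[N, N'], N''] ∈ L` for
`N, N', N'' ∈ 𝒩`. As `𝒩` is contained in the span of its commutators this gives `𝒩 ⊆ L`.
-/

set_option autoImplicit false

open PowerSeries

namespace Pool.Agent.Results.MP_470b79_ag.MonodromyTorsors

/-- The arithmetic conditions in the definition of a G-function, for a power series with rational coefficients: geometric
growth of the coefficients and of their common denominators. -/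
def GCond (g : ℚ⟦X⟧) : Prop := ∃ C : ℝ, (∀ m, |((coeff m g : ℚ) : ℝ)| ≤ C ^ (m + 1)) ∧
  ∀ m, ∃ d : ℕ, 0 < d ∧ (d : ℝ) ≤ C ^ (m + 1) ∧ ∀ j ≤ m, ∃ a : ℤ, (d : ℚ) * coeff j g = a

/-- The matrix `Ω Z(1/x)`. -/
noncomputable def periods {n : ℕ} (Ω : Matrix (Fin n) (Fin n) ℂ) (Z : Matrix (Fin n) (Fin n) ℚ⟦X⟧) (x : ℝ) :
    Matrix (Fin n) (Fin n) ℂ :=
  Ω * Matrix.of fun a j => ((∑' m : ℕ, ((coeff m (Z a j) : ℚ) : ℝ) * (1 / x) ^ m : ℝ) : ℂ)

/-- Every polynomial relation `F(1/x, Ω Z(1/x)) = 0` which holds for all real `x > x₀` also holds for `g Ω Z(1/x)`. -/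
def IsGalois {n : ℕ} (Ω : Matrix (Fin n) (Fin n) ℂ) (Z : Matrix (Fin n) (Fin n) ℚ⟦X⟧) (x₀ : ℕ)
    (g : Matrix (Fin n) (Fin n) ℂ) : Prop :=
  ∀ F : MvPolynomial (Option (Fin n × Fin n)) ℂ,
    (∀ x : ℝ, x₀ < x → MvPolynomial.aeval (fun o : Option (Fin n × Fin n) =>
      o.elim ((1 / x : ℝ) : ℂ) fun p => periods Ω Z x p.1 p.2) F = 0) →
    ∀ x : ℝ, x₀ < x → MvPolynomial.aeval (fun o : Option (Fin n × Fin n) =>
      o.elim ((1 / x : ℝ) : ℂ) fun p => (g * periods Ω Z x) p.1 p.2) F = 0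

/-- The elements of `𝒩` are nilpotent, all `exp (t N)` preserve the relations between the entries of `Ω Z(1/x)`, and `𝒩`
is contained in the span of its commutators. -/
def IsPerfectUnipotent {n : ℕ} (Ω : Matrix (Fin n) (Fin n) ℂ) (Z : Matrix (Fin n) (Fin n) ℚ⟦X⟧) (x₀ : ℕ)
    (𝒩 : Set (Matrix (Fin n) (Fin n) ℂ)) : Prop :=
  (∀ N ∈ 𝒩, IsNilpotent N ∧ ∀ t : ℂ, IsGalois Ω Z x₀ (IsNilpotent.exp (t • N))) ∧
  ∀ N ∈ 𝒩, N ∈ Submodule.span ℂ {C : Matrix (Fin n) (Fin n) ℂ | ∃ A ∈ 𝒩, ∃ B ∈ 𝒩, C = A * B - B * A}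

/-- The group generated by the matrices `exp (t N)`, `N ∈ 𝒩`, `t ∈ ℂ`. -/
noncomputable def expGroup {n : ℕ} (𝒩 : Set (Matrix (Fin n) (Fin n) ℂ)) : Submonoid (Matrix (Fin n) (Fin n) ℂ) :=
  Submonoid.closure {u | ∃ N ∈ 𝒩, ∃ t : ℂ, u = IsNilpotent.exp (t • N)}

/-- `T` is (the set of complex points of) a `K`-subtorsor of `GL_B = Iso (M_dR, M_B)`: it is closed under `x y⁻¹ z`, and
it is defined in `GL_B` by polynomials with coefficients in `K`. -/
def IsSubtorsor (K : Subfield ℂ) {B : Type} [Fintype B] [DecidableEq B] (T : Set (Matrix B B ℂ)) : Prop :=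
  (∀ x ∈ T, ∀ y ∈ T, ∀ z ∈ T, x * y⁻¹ * z ∈ T) ∧ ∃ I : Set (MvPolynomial (B × B) K), ∀ x : Matrix B B ℂ, x ∈ T ↔
    IsUnit x ∧ ∀ p ∈ I, MvPolynomial.eval (fun b => x b.1 b.2) (MvPolynomial.map (algebraMap K ℂ) p) = 0

/-- the block matrix `x ⊕ X_1 ⊕ … ⊕ X_k` -/
noncomputable def total {r n k : ℕ} (x : Matrix (Fin r) (Fin r) ℂ) (X : Fin k → Matrix (Fin n) (Fin n) ℂ) :
    Matrix (Fin r ⊕ (Fin n × Fin k)) (Fin r ⊕ (Fin n × Fin k)) ℂ :=
  Matrix.fromBlocks x 0 0 (Matrix.blockDiagonal X)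

/-- The action of an invertible matrix on the mixed tensors of type `(p, q)`: it acts by `x` on the first `p` indices and
by the contragredient on the others. -/
noncomputable def tens {B : Type} [Fintype B] [DecidableEq B] (p q : ℕ) (x : Matrix B B ℂ) :
    Matrix ((Fin p → B) × (Fin q → B)) ((Fin p → B) × (Fin q → B)) ℂ :=
  Matrix.of fun I J => (∏ s, x (I.1 s) (J.1 s)) * ∏ t, x⁻¹ (J.2 t) (I.2 t)

/-- The Lie algebra of the group `T T⁻¹`: the matrices `w` such that `w x` is a tangent vector of `T` at `x` for all `x` in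
`T`. -/
def lie {B : Type} [Fintype B] [DecidableEq B] (T : Set (Matrix B B ℂ)) : Set (Matrix B B ℂ) :=
  {w | ∀ P : MvPolynomial (B × B) ℂ, (∀ x ∈ T, MvPolynomial.eval (fun b => x b.1 b.2) P = 0) → ∀ x ∈ T,
    ∑ b : B × B, MvPolynomial.eval (fun b => x b.1 b.2) (MvPolynomial.pderiv b P) * (w * x) b.1 b.2 = 0}

/-- The conclusion for the fibres at `z = 1 / m_1, …, 1 / m_k`. -/
def Full {n r k : ℕ} (K : Subfield ℂ) (C₀ : Matrix (Fin r) (Fin r) ℂ) (Ω : Matrix (Fin n) (Fin n) ℂ)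
    (Z : Matrix (Fin n) (Fin n) ℚ⟦X⟧) (x₀ : ℕ) (m : Fin k → ℕ) : Prop :=
  (∀ l, IsUnit (periods Ω Z (m l))) ∧
  -- 1: all subtorsors
  (∀ 𝒩 : Set (Matrix (Fin n) (Fin n) ℂ), IsPerfectUnipotent Ω Z x₀ 𝒩 →
    ∀ g : Fin k → Matrix (Fin n) (Fin n) ℂ, (∀ l, g l ∈ expGroup 𝒩) →
    ∀ T : Set (Matrix (Fin r ⊕ (Fin n × Fin k)) (Fin r ⊕ (Fin n × Fin k)) ℂ), IsSubtorsor K T →
      total C₀ (fun l => periods Ω Z (m l)) ∈ T → ∀ x ∈ T, total 1 g * x ∈ T) ∧
  -- 2: classes in all tensor spaces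
  (∀ 𝒩 : Set (Matrix (Fin n) (Fin n) ℂ), IsPerfectUnipotent Ω Z x₀ 𝒩 →
    ∀ g : Fin k → Matrix (Fin n) (Fin n) ℂ, (∀ l, g l ∈ expGroup 𝒩) →
    IsUnit C₀ → ∀ (p q : ℕ) (a : (Fin p → Fin r ⊕ (Fin n × Fin k)) × (Fin q → Fin r ⊕ (Fin n × Fin k)) → K)
      (b : (Fin p → Fin r ⊕ (Fin n × Fin k)) × (Fin q → Fin r ⊕ (Fin n × Fin k)) → ℚ),
      Matrix.mulVec (tens p q (total C₀ fun l => periods Ω Z (m l))) (fun J => (a J : ℂ)) = (fun I => (b I : ℂ)) →
      Matrix.mulVec (tens p q (total 1 g)) (fun I => (b I : ℂ)) = fun I => (b I : ℂ)) ∧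
  -- 3: normality
  ∀ g : Fin k → Matrix (Fin n) (Fin n) ℂ, (∀ l, IsGalois Ω Z x₀ (g l) ∧ IsUnit (g l)) →
    ∀ T : Set (Matrix (Fin r ⊕ (Fin n × Fin k)) (Fin r ⊕ (Fin n × Fin k)) ℂ), IsSubtorsor K T →
      total C₀ (fun l => periods Ω Z (m l)) ∈ T → ∀ w ∈ lie T, total 1 g * w * (total 1 g)⁻¹ ∈ lie T

open Classical in
/-- The theorem. The numbers `x₀` and `G` depend only on the family, `M`, `c`, `C` only on the family and on `k, D, r`. -/
theorem result (n : ℕ) (f : Polynomial ℚ) (A : Matrix (Fin n) (Fin n) (Polynomial ℚ)) (Z W : Matrix (Fin n) (Fin n) ℚ⟦X⟧)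
    (hf : f.coeff 0 ≠ 0)
    (hode : ∀ i j, (f : ℚ⟦X⟧) * PowerSeries.derivative ℚ (Z i j) = ∑ k, Z i k * (A k j : ℚ⟦X⟧))
    (hW : W * Z = 1) (hGZ : ∀ i j, GCond (Z i j)) (hGW : ∀ i j, GCond (W i j)) :
    ∃ x₀ G : ℕ, ∀ k D r : ℕ,
      (∃ M : ℕ, ∃ c : ℝ, 0 < c ∧ ∀ Ω : Matrix (Fin n) (Fin n) ℂ, IsUnit Ω →
        ∀ K : Subfield ℂ, FiniteDimensional ℚ K → Module.finrank ℚ K ≤ D →
        ∀ C₀ : Matrix (Fin r) (Fin r) ℂ, ∀ N : ℕ, 1 ≤ N →
        ∃ S : Finset ℕ, S.card ≤ M ∧ ∀ m : Fin k → ℕ, (∀ i j, i ≠ j → (G : ℤ) ≤ |(m i : ℤ) - m j|) →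
          (∀ i, N ≤ m i ∧ (m i : ℝ) ≤ N + (N : ℝ) ^ c ∧ m i ∉ S) → Full K C₀ Ω Z x₀ m) ∧
      ∃ c : ℝ, 0 < c ∧ ∃ C : ℝ, ∀ Ω : Matrix (Fin n) (Fin n) ℂ, IsUnit Ω →
        ∀ K : Subfield ℂ, FiniteDimensional ℚ K → Module.finrank ℚ K ≤ D →
        ∀ C₀ : Matrix (Fin r) (Fin r) ℂ, ∀ T : ℕ, 1 ≤ T →
        (((Fintype.piFinset fun _ : Fin k => Finset.Icc 2 T).filter fun m => ¬ Full K C₀ Ω Z x₀ m).card : ℝ) ≤
          C * (T : ℝ) ^ ((k : ℝ) - c) := by
  have hG : ∀ g : ℚ⟦X⟧, GCond g → Y113.SDc g := by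
    rintro g ⟨C, h1, h2⟩
    have hC : 1 ≤ C := by
      obtain ⟨d, hd0, hd, -⟩ := h2 0
      have : (1 : ℝ) ≤ d := by exact_mod_cast hd0
      simpa using this.trans hd
    obtain ⟨a, ha⟩ := Y678.HG.exists_two_pow C
    refine ⟨a, fun m => (h1 m).trans (pow_le_pow_left₀ (by linarith) ha _), fun m => ?_⟩
    obtain ⟨d, hd0, hd, hd'⟩ := h2 m
    exact ⟨d, hd0, hd.trans (pow_le_pow_left₀ (by linarith) ha _), hd'⟩
  have hdat : Y113.GG.Dat f (fun i j => A i j) (fun i j => Z i j) (fun i j => W i j) := by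
    refine ⟨hf, hode, fun i j => ?_, fun i j => hG _ (hGZ i j), fun i j => hG _ (hGW i j)⟩
    have h1 : (W * Z) i j = (1 : Matrix (Fin n) (Fin n) ℚ⟦X⟧) i j := by rw [hW]
    rw [Matrix.mul_apply] at h1
    rw [h1, Matrix.one_apply]
  -- the conclusion
  have hconv : ∀ {r k : ℕ} (K : Subfield ℂ) (C₀ : Matrix (Fin r) (Fin r) ℂ) (Ω : Matrix (Fin n) (Fin n) ℂ) (x₀ : ℕ)
      (m : Fin k → ℕ), (Y123.GN.Fullness K C₀ Ω (fun i j => Z i j) x₀ m ∧ Y123.GN.PU Ω (fun i j => Z i j) m) →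
      Full K C₀ Ω Z x₀ m := by
    rintro r k K C₀ Ω x₀ m ⟨h, hpu⟩
    have h1 : ∀ 𝒩 : Set (Matrix (Fin n) (Fin n) ℂ), IsPerfectUnipotent Ω Z x₀ 𝒩 →
        ∀ g : Fin k → Matrix (Fin n) (Fin n) ℂ, (∀ l, g l ∈ expGroup 𝒩) →
        ∀ T : Set (Matrix (Fin r ⊕ (Fin n × Fin k)) (Fin r ⊕ (Fin n × Fin k)) ℂ), TH127.PT.IsSubtorsor K T →
          total C₀ (fun l => periods Ω Z (m l)) ∈ T → ∀ x ∈ T, total 1 g * x ∈ T := by
      intro 𝒩 h𝒩 g hg T hT hcT
      exact (h T hT hcT).1 𝒩 (fun N hN => (h𝒩.1 N hN).1) (fun N hN t => (h𝒩.1 N hN).2 t) h𝒩.2 g hg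
    refine ⟨hpu, fun 𝒩 h𝒩 g hg T hT => h1 𝒩 h𝒩 g hg T (Y123.ST.subT_iff.1 hT), ?_, ?_⟩
    · intro 𝒩 h𝒩 g hg hC₀ p q a b hab
      have hT := Y123.GN.class_sub (K := K) (M := Fin r ⊕ (Fin n × Fin k)) (p := p) (q := q) (fun J => (a J : ℂ))
        (fun I => (b I : ℂ)) (fun J => (a J).2) (fun I => SubfieldClass.ratCast_mem K _)
      have hu : IsUnit (total C₀ fun l => periods Ω Z (m l)) :=
        Y123.SR.E2_isUnit hC₀ fun l => (Matrix.isUnit_iff_isUnit_det _).1 (hpu l)
      have h2 := h1 𝒩 h𝒩 g hg _ hT ⟨hu, hab⟩ _ ⟨hu, hab⟩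
      have h3 := h2.2
      rw [Y123.GN.tn_mul, ← Matrix.mulVec_mulVec] at h3
      have h4 : Matrix.mulVec (Y123.GN.tn p q (total C₀ fun l => periods Ω Z (m l))) (fun J => (a J : ℂ)) =
        fun I => (b I : ℂ) := hab
      rw [h4] at h3
      exact h3
    · intro g hg T hT hcT w hw
      exact (h T (Y123.ST.subT_iff.1 hT) hcT).2 g (fun l => (hg l).1)
        (fun l => (Matrix.isUnit_iff_isUnit_det _).1 (hg l).2) w hw
  obtain ⟨x₀, G, hmain⟩ := Y123.GN.gen_main hdat
  refine ⟨x₀, G, fun k D r => ?_⟩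
  obtain ⟨⟨M, c₁, hc₁, hwin⟩, c, hc, C, hcount⟩ := hmain k D r
  refine ⟨⟨M, c₁, hc₁, ?_⟩, c, hc, C, ?_⟩
  · rintro _ ⟨u, rfl⟩ K hK hKD C₀ N hN
    obtain ⟨S, hS, hS'⟩ := hwin (u : Matrix (Fin n) (Fin n) ℂ) (u⁻¹ : _) u.mul_inv u.inv_mul K hK hKD (Fin r) C₀ (by simp)
      N hN
    exact ⟨S, hS, fun m hm hmS => hconv K C₀ _ x₀ m (hS' m hm hmS)⟩
  · rintro _ ⟨u, rfl⟩ K hK hKD C₀ T hT
    have h1 := hcount (u : Matrix (Fin n) (Fin n) ℂ) (u⁻¹ : _) u.mul_inv u.inv_mul K hK hKD (Fin r) C₀ (by simp) T hT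
    refine le_trans ?_ h1
    have h2 : ((Fintype.piFinset fun _ : Fin k => Finset.Icc 2 T).filter fun m => ¬ Full K C₀ (u : Matrix (Fin n) (Fin n) ℂ)
        Z x₀ m) ⊆ ((Fintype.piFinset fun _ : Fin k => Finset.Icc 2 T).filter fun m =>
          ¬ (Y123.GN.Fullness K C₀ (u : Matrix (Fin n) (Fin n) ℂ) (fun i j => Z i j) x₀ m ∧
            Y123.GN.PU (u : Matrix (Fin n) (Fin n) ℂ) (fun i j => Z i j) m)) := by
      intro m hm
      rw [Finset.mem_filter] at hm ⊢
      exact ⟨hm.1, fun h3 => hm.2 (hconv K C₀ _ x₀ m h3)⟩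
    exact_mod_cast Finset.card_le_card h2

end Pool.Agent.Results.MP_470b79_ag.MonodromyTorsors
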