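import Pool.Agent.Y123.SR.R7

/-!
# `Ω^dRB` of `M_0 ⊕ ℚ(-1) ⊕ M_t`, for an arbitrary de Rham-Betti object `M_0` and almost all hyperelliptic curves

Let `f_1, …, f_N ∈ ℚ[X]` be monic of degree `n = 2 g` with `n` distinct real roots which are not zero. For natural numbers
`t_j` let `M_t = h^1(C_1) ⊕ … ⊕ h^1(C_N)` be the motive of the curves `C_j : y² = f_j(x) (x - 1 / t_j)` of genus `g`.

Let `K` be a number field and `M_0` any de Rham-Betti object over `K`, for example the realisation of any motive over `K`,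
with period matrix `C₀` (any invertible complex matrix). Then for almost all `t` (all but `M T^(N - c)` of the `T^N` tuples
of natural numbers `t_j ≤ T`, where `c > 0` and `M` depend only on the `f_j`, the degree of `K` and the rank of `M_0`):

1. Every `K`-subtorsor `T'` of `Iso` for `M_0 ⊕ ℚ(-1) ⊕ M_t`, which contains the period matrix and respects the
decomposition and the polarisations of `M_t` (with values in `ℚ(-1)`), is the fibre product
`T' = T_0 ×_(G_m) (torsor of the polarisations of M_t)`, where `T_0`, the projection of `T'`, is a `K`-subtorsor of `Iso` for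
`M_0 ⊕ ℚ(-1)`. So it consists of all `x_0 ⊕ μ ⊕ X_1 ⊕ … ⊕ X_N` such that `x_0 ⊕ μ ∈ T_0` and `X_j` respects the
polarisation with the multiplier `μ`.

2. The smallest `K`-subtorsor containing the period matrix is such a fibre product, with `T_0` the smallest `K`-subtorsor
containing the period matrix of `M_0 ⊕ ℚ(-1)`.

Consequences. 1 applies to `Ω^dRB`; as the projection of `Ω^dRB` is `Ω^dRB_(M_0 ⊕ ℚ(-1))`, we get
`Ω^dRB_(M_0 ⊕ ℚ(-1) ⊕ M_t) = Ω^dRB_(M_0 ⊕ ℚ(-1)) ×_(G_m) (torsor of the polarisations)`. So `G_dRB` contains the product of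
`N` symplectic groups, acting trivially on `M_0`. As the polarisations are algebraic classes, `Ω^And` and `Ω^mot` are
contained in the fibre product of `Ω^And`, `Ω^mot` of `M_0 ⊕ ℚ(-1)` with the torsor of the polarisations. So for every motive
`M_0` and almost all `t` the equalities `Ω^dRB = Ω^And` (and `= Ω^mot`) hold for `M_0 ⊕ ℚ(-1) ⊕ M_t` if and only if they
hold for `M_0 ⊕ ℚ(-1)`. For example they hold for `h²(X) ⊕ h^1(C_1) ⊕ … ⊕ h^1(C_N)` for the hyper-Kähler varieties `X`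
over `K` for which they are known for `h²(X)`, and then for the powers of `X × C_1 × … × C_N`.

Proof (`Pool/Agent/Y123/SR`). A theorem of helper118 (`Pool/Agent/Y118/HG`) says that outside of a sparse set all relations
of bounded degree between the entries of the period matrix `c` of `M_t`, with coefficients in a given `ℚ`-space of bounded
dimension, are trivial; this is applied to the space of the products of elements of `K` and at most four of the periods of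
`M_0` and their inverses. As the Lie algebra of `T'` is rational over `K`, it follows that it is stable under conjugation by
`Sp^N`. If the Lie algebra does not contain the algebra `sp` of the block `j`, then for every point of `T'` and every
derivation of `ℂ` over `K` the logarithmic derivative of the block `j` is a scalar, so this block is algebraic up to
scalars. Hence `T'` maps to a finite subgroup of `PGSp`, which contradicts the theorem of Jordan on finite linear groups,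
because the latter gives a relation of bounded degree. So `T'` is stable under `Sp^N`, and its projection to `GL(M_0)` is
closed and defined over `K` by descent.
-/

set_option autoImplicit false

open Polynomial Matrix

namespace Pool.Agent.Results.MP_470b79_ag.RelativeSubtorsors

/-- `T` is (the set of complex points of) a `K`-subtorsor of `GL_B = Iso (M_dR, M_B)`: it is closed under `x y⁻¹ z`, and
it is defined in `GL_B` by polynomials with coefficients in `K`. -/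
def IsSubtorsor (K : Subfield ℂ) {B : Type} [Fintype B] [DecidableEq B] (T : Set (Matrix B B ℂ)) : Prop :=
  (∀ x ∈ T, ∀ y ∈ T, ∀ z ∈ T, x * y⁻¹ * z ∈ T) ∧ ∃ I : Set (MvPolynomial (B × B) K), ∀ x : Matrix B B ℂ, x ∈ T ↔
    IsUnit x ∧ ∀ p ∈ I, MvPolynomial.eval (fun b => x b.1 b.2) (MvPolynomial.map (algebraMap K ℂ) p) = 0

/-- `Ω` is the smallest `K`-subtorsor which contains the period matrix `c` -/
def IsOmega (K : Subfield ℂ) {B : Type} [Fintype B] [DecidableEq B] (c : Matrix B B ℂ) (Ω : Set (Matrix B B ℂ)) : Prop :=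
  IsSubtorsor K Ω ∧ c ∈ Ω ∧ ∀ T : Set (Matrix B B ℂ), IsSubtorsor K T → c ∈ T → Ω ⊆ T

/-- the block matrix `x ⊕ μ`; for a period matrix `x` of `M_0` and `μ = 2πi` the period matrix of `M_0 ⊕ ℚ(-1)` -/
def withTate {r : ℕ} (x : Matrix (Fin r) (Fin r) ℂ) (μ : ℂ) : Matrix (Fin r ⊕ Unit) (Fin r ⊕ Unit) ℂ :=
  Matrix.fromBlocks x 0 0 (Matrix.of fun _ _ => μ)

/-- the block matrix `x ⊕ μ ⊕ X_1 ⊕ … ⊕ X_N` -/
noncomputable def total {r n N : ℕ} (x : Matrix (Fin r) (Fin r) ℂ) (μ : ℂ) (X : Fin N → Matrix (Fin n) (Fin n) ℂ) :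
    Matrix ((Fin r ⊕ Unit) ⊕ (Fin n × Fin N)) ((Fin r ⊕ Unit) ⊕ (Fin n × Fin N)) ℂ :=
  Matrix.fromBlocks (withTate x μ) 0 0 (Matrix.blockDiagonal X)

/-- the alternating form with entries `2 (-1)^r` at `(r, s)`, `|r - s| = 1` -/
def polB (n : ℕ) : Matrix (Fin n) (Fin n) ℚ :=
  Matrix.of fun r s => if (r : ℕ) = s + 1 ∨ (s : ℕ) = r + 1 then 2 * (-1) ^ (r : ℕ) else 0

/-- `(X_1, …, X_N)` respects the polarisations, with multiplier `μ` -/
def Respects {n N : ℕ} (Q : Fin N → Matrix (Fin n) (Fin n) ℂ) (X : Fin N → Matrix (Fin n) (Fin n) ℂ) (μ : ℂ) : Prop :=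
  ∀ j, X j * Q j * (X j)ᵀ = μ • (polB n).map (algebraMap ℚ ℂ)

/-- the matrices which respect the decomposition and the polarisations -/
def respecting {r n N : ℕ} (Q : Fin N → Matrix (Fin n) (Fin n) ℂ) :
    Set (Matrix ((Fin r ⊕ Unit) ⊕ (Fin n × Fin N)) ((Fin r ⊕ Unit) ⊕ (Fin n × Fin N)) ℂ) :=
  {y | ∃ (x : Matrix (Fin r) (Fin r) ℂ) (μ : ℂ) (X : Fin N → Matrix (Fin n) (Fin n) ℂ), Respects Q X μ ∧ y = total x μ X}

/-- the fibre product of `T₀` and the torsor of the polarisations: the matrices `x ⊕ μ ⊕ X` such that `x ⊕ μ` is in `T₀`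
and `X` respects the polarisations with the multiplier `μ` -/
def fibreProduct {r n N : ℕ} (Q : Fin N → Matrix (Fin n) (Fin n) ℂ) (T₀ : Set (Matrix (Fin r ⊕ Unit) (Fin r ⊕ Unit) ℂ)) :
    Set (Matrix ((Fin r ⊕ Unit) ⊕ (Fin n × Fin N)) ((Fin r ⊕ Unit) ⊕ (Fin n × Fin N)) ℂ) :=
  {y | ∃ (x : Matrix (Fin r) (Fin r) ℂ) (μ : ℂ) (X : Fin N → Matrix (Fin n) (Fin n) ℂ),
    withTate x μ ∈ T₀ ∧ Respects Q X μ ∧ y = total x μ X}

/-- the projection to `M_0 ⊕ ℚ(-1)` -/
def proj {r n N : ℕ} (T : Set (Matrix ((Fin r ⊕ Unit) ⊕ (Fin n × Fin N)) ((Fin r ⊕ Unit) ⊕ (Fin n × Fin N)) ℂ)) :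
    Set (Matrix (Fin r ⊕ Unit) (Fin r ⊕ Unit) ℂ) :=
  {w | ∃ (x : Matrix (Fin r) (Fin r) ℂ) (μ : ℂ) (X : Fin N → Matrix (Fin n) (Fin n) ℂ),
    w = withTate x μ ∧ total x μ X ∈ T}

/-- the branch points: `t` inserted at place `m` in the sequence of the `a i` -/
noncomputable def branch {n : ℕ} (a : Fin n → ℝ) (m : Fin (n + 1)) (t : ℝ) : Fin (n + 1) → ℝ :=
  Fin.insertNth (α := fun _ => ℝ) m t a

/-- the period `∮ x^j dx / y`, `y² = ∏ (x - e i)`, over the loop around the segment `[e l, e (l + 1)]`, that is twice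
the integral over the segment (principal branch of the square root) -/
noncomputable def period {n : ℕ} (e : Fin (n + 1) → ℝ) (l j : Fin n) : ℂ :=
  2 * ∫ x in (e l.castSucc)..(e l.succ), (x : ℂ) ^ (j : ℕ) / (((∏ i, (x - e i) : ℝ) : ℂ) ^ (1 / 2 : ℂ))

/-- the polarisation in terms of the forms `x^j dx / y`, `y² = F(x) = ∑ c_k x^k`: entries `(i - j)/2 * c_(i+j+2)` -/
noncomputable def polDR (n : ℕ) (F : ℚ[X]) : Matrix (Fin n) (Fin n) ℚ :=
  Matrix.of fun i j => (((i : ℕ) : ℚ) - ((j : ℕ) : ℚ)) / 2 * F.coeff ((i : ℕ) + (j : ℕ) + 2)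

theorem withTate_unit {r : ℕ} {x : Matrix (Fin r) (Fin r) ℂ} (hx : IsUnit x) {μ : ℂ} (hμ : μ ≠ 0) :
    IsUnit (withTate x μ) := by
  rw [Matrix.isUnit_iff_isUnit_det] at hx ⊢
  have h1 : (Matrix.of fun _ _ => μ : Matrix Unit Unit ℂ).det = μ := by
    rw [Matrix.det_unique]
    rfl
  unfold withTate
  rw [Matrix.det_fromBlocks_zero₂₁, h1]
  exact hx.mul (isUnit_iff_ne_zero.2 hμ)

theorem cm_withTate {r : ℕ} (x : Matrix (Fin r) (Fin r) ℂ) (μ : ℂ) :
    Pool.Agent.Y123.SR.Cm (Sum.inr ()) (withTate x μ) := by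
  rintro (k | ⟨⟩) hk
  · exact ⟨rfl, rfl⟩
  · exact absurd rfl hk

theorem eq_withTate {r : ℕ} {x : Matrix (Fin r ⊕ Unit) (Fin r ⊕ Unit) ℂ}
    (h2 : Pool.Agent.Y123.SR.Cm (Sum.inr ()) x) :
    x = withTate (Matrix.of fun i j => x (Sum.inl i) (Sum.inl j)) (x (Sum.inr ()) (Sum.inr ())) := by
  ext i j
  rcases i with i | ⟨⟩
  · rcases j with j | ⟨⟩
    · rfl
    · exact (h2 (Sum.inl i) (by simp)).2
  · rcases j with j | ⟨⟩
    · exact (h2 (Sum.inl j) (by simp)).1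
    · rfl

theorem fibreProduct_eq {r n N : ℕ} (Q : Fin N → Matrix (Fin n) (Fin n) ℂ)
    {Ω₀ : Set (Matrix (Fin r ⊕ Unit) (Fin r ⊕ Unit) ℂ)} (hΩ : ∀ x ∈ Ω₀, IsUnit x) :
    Pool.Agent.Y123.SR.FP (fun j => (-1 / 2 : ℂ) • Q j) (Sum.inr ()) Ω₀ = fibreProduct Q Ω₀ := by
  ext y
  constructor
  · rintro ⟨x, X, h1, h2, h3, rfl⟩
    have h4 := eq_withTate h2
    refine ⟨Matrix.of fun i j => x (Sum.inl i) (Sum.inl j), x (Sum.inr ()) (Sum.inr ()), X, ?_,
      fun j => Pool.Agent.Y123.ST.rel_iff.2 (h3.2 j), ?_⟩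
    · rw [← h4]
      exact h1
    · unfold Pool.Agent.Y123.SR.E2 total
      rw [← h4]
  · rintro ⟨x, μ, X, h1, h2, rfl⟩
    have hcm := cm_withTate x μ
    have h0 := (Pool.Agent.Y123.SR.cm_inv (hΩ _ h1) hcm).2.1
    exact ⟨withTate x μ, X, h1, hcm, ⟨h0, fun j => Pool.Agent.Y123.ST.rel_iff.1 (h2 j)⟩, rfl⟩

theorem unit_block {r n N : ℕ} {x : Matrix (Fin r) (Fin r) ℂ} {μ : ℂ} {X : Fin N → Matrix (Fin n) (Fin n) ℂ}
    (h : IsUnit (total x μ X)) : IsUnit (withTate x μ) := by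
  rw [Matrix.isUnit_iff_isUnit_det] at h ⊢
  unfold total at h
  rw [Matrix.det_fromBlocks_zero₂₁] at h
  exact isUnit_of_mul_isUnit_left h

theorem respecting_sub {r n N : ℕ} (Q : Fin N → Matrix (Fin n) (Fin n) ℂ)
    {T : Set (Matrix ((Fin r ⊕ Unit) ⊕ (Fin n × Fin N)) ((Fin r ⊕ Unit) ⊕ (Fin n × Fin N)) ℂ)}
    (hT : ∀ x ∈ T, IsUnit x) (h : T ⊆ respecting Q) :
    T ⊆ Pool.Agent.Y123.SR.FP (fun j => (-1 / 2 : ℂ) • Q j) (Sum.inr ()) {x | IsUnit x} := by
  intro y hy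
  obtain ⟨x, μ, X, h1, rfl⟩ := h hy
  have h2 := unit_block (hT _ hy)
  have hcm := cm_withTate x μ
  exact ⟨withTate x μ, X, h2, hcm, ⟨(Pool.Agent.Y123.SR.cm_inv h2 hcm).2.1, fun j => Pool.Agent.Y123.ST.rel_iff.1 (h1 j)⟩,
    rfl⟩

theorem proj_eq {r n N : ℕ} (Q : Fin N → Matrix (Fin n) (Fin n) ℂ)
    {T : Set (Matrix ((Fin r ⊕ Unit) ⊕ (Fin n × Fin N)) ((Fin r ⊕ Unit) ⊕ (Fin n × Fin N)) ℂ)}
    (h : T ⊆ respecting Q) : {x | ∃ X, Pool.Agent.Y123.SR.E2 x X ∈ T} = proj T := by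
  ext w
  constructor
  · rintro ⟨X, hX⟩
    obtain ⟨x, μ, X', h1, h2⟩ := h hX
    obtain ⟨h3, h4⟩ := Pool.Agent.Y123.SR.E2_inj (show Pool.Agent.Y123.SR.E2 w X =
      Pool.Agent.Y123.SR.E2 (withTate x μ) X' from h2)
    refine ⟨x, μ, X, h3, ?_⟩
    rw [h3] at hX
    exact hX
  · rintro ⟨x, μ, X, rfl, h1⟩
    exact ⟨X, h1⟩

theorem result (n N : ℕ) (hn : Even n) (hn0 : 0 < n) (a : Fin N → Fin n → ℝ) (f : Fin N → ℚ[X])
    (m : Fin N → Fin (n + 1)) (hf : ∀ j, (f j).map (algebraMap ℚ ℝ) = ∏ i, (X - C (a j i)))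
    (h0 : ∀ j, StrictMono (branch (a j) (m j) 0)) (D r : ℕ) :
    ∃ c M : ℝ, 0 < c ∧ ∀ K : Subfield ℂ, FiniteDimensional ℚ K → Module.finrank ℚ K ≤ D →
      ∀ C₀ : Matrix (Fin r) (Fin r) ℂ, IsUnit C₀ → ∀ T : ℕ, 1 ≤ T →
        ∃ S : Finset (Fin N → ℕ), (S.card : ℝ) ≤ M * (T : ℝ) ^ ((N : ℝ) - c) ∧
          ∀ t : Fin N → ℕ, (∀ j, 1 ≤ t j ∧ t j ≤ T) → t ∉ S →
            (∀ j, StrictMono (branch (a j) (m j) (1 / (t j : ℝ)))) ∧
            -- 1: all subtorsors
            (∀ T' : Set (Matrix ((Fin r ⊕ Unit) ⊕ (Fin n × Fin N)) ((Fin r ⊕ Unit) ⊕ (Fin n × Fin N)) ℂ),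
              IsSubtorsor K T' →
              total C₀ (2 * Real.pi * Complex.I) (fun j => Matrix.of (period (branch (a j) (m j) (1 / (t j : ℝ))))) ∈ T' →
              T' ⊆ respecting (fun j => (polDR n (f j * (X - C (1 / (t j : ℚ))))).map (algebraMap ℚ ℂ)) →
              IsSubtorsor K (proj T') ∧
                T' = fibreProduct (fun j => (polDR n (f j * (X - C (1 / (t j : ℚ))))).map (algebraMap ℚ ℂ)) (proj T')) ∧
            -- 2: the smallest subtorsor
            ∃ Ω₀, IsOmega K (withTate C₀ (2 * Real.pi * Complex.I)) Ω₀ ∧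
              IsOmega K (total C₀ (2 * Real.pi * Complex.I) fun j =>
                  Matrix.of (period (branch (a j) (m j) (1 / (t j : ℝ)))))
                (fibreProduct (fun j => (polDR n (f j * (X - C (1 / (t j : ℚ))))).map (algebraMap ℚ ℂ)) Ω₀) := by
  obtain ⟨c, M, hc, h1⟩ := Pool.Agent.Y123.SR.rel_hyp_all n N hn hn0 a f hf m h0 D (r + 1)
  refine ⟨c, M, hc, fun K hK hKD C₀ hC₀ T hT => ?_⟩
  have h2pi : (2 * Real.pi * Complex.I : ℂ) ≠ 0 := by
    have := Complex.I_ne_zero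
    have h2 : (Real.pi : ℂ) ≠ 0 := by exact_mod_cast Real.pi_ne_zero
    exact mul_ne_zero (mul_ne_zero two_ne_zero h2) this
  have hu := withTate_unit hC₀ h2pi
  have hcm := cm_withTate C₀ (2 * Real.pi * Complex.I : ℂ)
  obtain ⟨S, hS, h2⟩ := h1 K hK hKD (Fin r ⊕ Unit) (Sum.inr ()) (withTate C₀ (2 * Real.pi * Complex.I)) (by simp) hu hcm
    rfl T hT
  refine ⟨S, hS, fun t ht htS => ?_⟩
  obtain ⟨h3, htor, h4⟩ := h2 t ht htS
  have key : ∀ T' : Set (Matrix ((Fin r ⊕ Unit) ⊕ (Fin n × Fin N)) ((Fin r ⊕ Unit) ⊕ (Fin n × Fin N)) ℂ),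
      IsSubtorsor K T' →
      total C₀ (2 * Real.pi * Complex.I) (fun j => Matrix.of (period (branch (a j) (m j) (1 / (t j : ℝ))))) ∈ T' →
      T' ⊆ respecting (fun j => (polDR n (f j * (X - C (1 / (t j : ℚ))))).map (algebraMap ℚ ℂ)) →
      IsSubtorsor K (proj T') ∧
        T' = fibreProduct (fun j => (polDR n (f j * (X - C (1 / (t j : ℚ))))).map (algebraMap ℚ ℂ)) (proj T') := by
    intro T' hT' hcT' hTr
    have hT'' := Pool.Agent.Y123.ST.subT_iff.1 hT'
    obtain ⟨h5, h6⟩ := h4 T' hT'' hcT' (respecting_sub _ hT''.isUnit hTr)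
    rw [proj_eq _ hTr] at h5 h6
    refine ⟨Pool.Agent.Y123.ST.subT_iff.2 h5, ?_⟩
    conv_lhs => rw [h6]
    exact fibreProduct_eq _ h5.isUnit
  refine ⟨h3, key, ?_⟩
  have hΩ := Pool.Agent.Y123.SR.OmS_om (K := K) hu
  refine ⟨_, hΩ, ?_⟩
  have h5 := Pool.Agent.Y123.SR.om_of_all hn (fun j a' b' =>
    Pool.Agent.Y123.ST.half_mem (K := K) (Q := fun j => (polDR n (f j * (X - C (1 / (t j : ℚ))))).map (algebraMap ℚ ℂ))
      (fun j a b => SubfieldClass.ratCast_mem K _) j a' b') hu hcm htor h4 hΩ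
  rw [fibreProduct_eq _ (Pool.Agent.Y123.ST.subT_iff.1 hΩ.1).isUnit] at h5
  exact h5

end Pool.Agent.Results.MP_470b79_ag.RelativeSubtorsors
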